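import Pool.Agent.H57.CN.Targets

/-!
# chn_modules INV: types of names give types of flags
-/

set_option autoImplicit false
set_option linter.unusedVariables false

namespace Pool.Agent.H61.CN

open Pool.Agent.H68.BP Pool.Agent.H58.SF Pool.Agent.H53.NR
open Pool.Agent.H53.GC (strOn sigOf)
open Pool.Agent.H57.AR (tp ty Ty)
open Pool.Agent.H57.LH (Hmg tp_iff tp_strOn)
open Pool.Agent.H72.CH
open Pool.Agent.H57.CN
open Function

theorem bk_last {V W : Type} {m : ℕ} (β : (Fin m → W) → V) (c : Fin m → W) (z : Fin m → W)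
    (h : Fin m) (hh : ∀ i, i ≤ h) : bk β c z h = β z := by
  unfold bk
  congr 1
  funext i
  rw [if_pos (hh i)]

theorem pf_INV : T_INV := by
  intro V ρ 𝔹 m lv hV hm R hR 𝔻 st β c hN J x y hxy K w hw
  rw [hN.str] at hxy
  obtain ⟨he, hr⟩ := tp_strOn.1 hxy
  have hst : ∀ j, st (y j) = st (x j) := fun j => (hr (Sum.inl (st (x j))) (fun _ => j)).1 rfl
  refine tp_of_small R (fun l => le_trans (Finset.le_sup (f := ρ.ar) (Finset.mem_univ l))
    (show ρ.width ≤ R by omega)) (by omega) (fun k => ?_)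
  have hlast : ∀ i : Fin m, i ≤ (⟨m - 1, by omega⟩ : Fin m) := by
    intro i
    rw [Fin.le_def]
    have := i.2
    simp only
    omega
  have h1 : NR 𝔹 lv st (bk β c)
      (Sum.inr (fun _ => (⟨m - 1, by omega⟩ : Fin m), tp 𝔹 (fun a => β (fun i => x (w (k a) i)))) :
        NI ρ m R) (fun q => x (w (k q.1) q.2)) := by
    refine ⟨fun a i _ => hw _ _, fun a => β (fun i => x (w (k a) i)), fun a => ?_, rfl⟩
    rw [bk_last β c _ _ hlast, hV.lev.pl.self]
    simp only
    omega
  obtain ⟨-, x', hx', htp⟩ := (hr (Sum.inr (fun _ => (⟨m - 1, by omega⟩ : Fin m),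
    tp 𝔹 (fun a => β (fun i => x (w (k a) i)))) : NI ρ m R) (fun q => w (k q.1) q.2)).1 h1
  have hx2 : x' = fun a => β (fun i => y (w (k a) i)) := by
    funext a
    have h3 := hx' a
    rw [bk_last β c _ _ hlast] at h3
    apply hV.lev.eq
    apply le_antisymm (hV.lev.pl.le _ _)
    simp only at h3
    omega
  rw [hx2] at htp
  exact htp.symm

end Pool.Agent.H61.CN
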